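import Mathlib

/-!
The group `G^2_4` of Manturov contains a free subgroup of rank two.
-/

namespace Pool.Agent.Results.MP_18aa7e_al.FreeSubgroup

/-- The six generators `a = a₁₂`, `b = a₁₃`, `c = a₁₄`, `d = a₂₃`, `e = a₂₄`, `f = a₃₄`. -/
inductive Gen
  | a | b | c | d | e | f

open Gen

/-- The relation `u = v` between two products of generators. -/
def rel (u v : List Gen) : FreeGroup Gen :=
  (u.map FreeGroup.of).prod * ((v.map FreeGroup.of).prod)⁻¹

/-- The defining relations of `G^2_4`. -/
def rels : Set (FreeGroup Gen) :=
  {rel [a, a] [], rel [b, b] [], rel [c, c] [], rel [d, d] [], rel [e, e] [], rel [f, f] [],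
    rel [a, f] [f, a], rel [b, e] [e, b], rel [c, d] [d, c],
    rel [a, b, d] [d, b, a], rel [b, a, d] [d, a, b], rel [a, d, b] [b, d, a],
    rel [a, c, e] [e, c, a], rel [c, a, e] [e, a, c], rel [a, e, c] [c, e, a],
    rel [b, c, f] [f, c, b], rel [c, b, f] [f, b, c], rel [b, f, c] [c, f, b],
    rel [d, e, f] [f, e, d], rel [e, d, f] [f, d, e], rel [d, f, e] [e, f, d]}

/-- The group `G^2_4`. -/
abbrev G24 : Type := PresentedGroup rels

/-! ### three involutions of the set of elements of a free group -/

abbrev F2 : Type := FreeGroup (Fin 2)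

/-- the automorphism inverting both generators -/
def yhom : F2 →* F2 := FreeGroup.lift fun i => (FreeGroup.of i)⁻¹

theorem yhom_yhom (w : F2) : yhom (yhom w) = w := by
  have : yhom.comp yhom = MonoidHom.id F2 := by
    ext i
    simp [yhom]
  exact DFunLike.congr_fun this w

/-- the automorphism exchanging the two generators -/
def zhom : F2 →* F2 := FreeGroup.lift fun i => FreeGroup.of (Equiv.swap 0 1 i)

theorem zhom_zhom (w : F2) : zhom (zhom w) = w := by
  have : zhom.comp zhom = MonoidHom.id F2 := by
    ext i
    simp [zhom]
  exact DFunLike.congr_fun this w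

theorem yz (w : F2) : yhom (zhom w) = zhom (yhom w) := by
  have : yhom.comp zhom = zhom.comp yhom := by
    ext i
    simp [zhom, yhom]
  exact DFunLike.congr_fun this w

/-- `y` as a permutation -/
def Y : Equiv.Perm F2 := ⟨yhom, yhom, yhom_yhom, yhom_yhom⟩
/-- `z` as a permutation -/
def Z : Equiv.Perm F2 := ⟨zhom, zhom, zhom_zhom, zhom_zhom⟩
/-- left multiplication by the first generator -/
def L : Equiv.Perm F2 := Equiv.mulLeft (FreeGroup.of 0)
/-- left multiplication by the first generator after `y` -/
def X : Equiv.Perm F2 := L * Y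

theorem YY : Y * Y = 1 := by
  ext w : 1
  exact yhom_yhom w

theorem ZZ : Z * Z = 1 := by
  ext w : 1
  exact zhom_zhom w

theorem YZ : Y * Z = Z * Y := by
  ext w : 1
  exact yz w

theorem XX : X * X = 1 := by
  ext w : 1
  change FreeGroup.of 0 * yhom (FreeGroup.of 0 * yhom w) = w
  rw [map_mul, yhom_yhom]
  simp [yhom]

theorem XY : X * Y = L := by
  unfold X
  rw [mul_assoc, YY, mul_one]

/-- images of the generators -/
def gen : Gen → Equiv.Perm F2
  | a => X
  | b => Y
  | c => X
  | d => X
  | e => Z
  | f => X

theorem gen_rels : ∀ r ∈ rels, FreeGroup.lift gen r = 1 := by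
  have hYZ := YZ
  have hXX := XX
  have hYY := YY
  have hZZ := ZZ
  intro r hr
  have key : ∀ u v : List Gen, (u.map gen).prod = (v.map gen).prod →
      FreeGroup.lift gen (rel u v) = 1 := by
    intro u v h
    unfold rel
    rw [map_mul, map_inv, map_list_prod, map_list_prod, List.map_map, List.map_map]
    have e : (⇑(FreeGroup.lift gen) ∘ FreeGroup.of) = gen := by
      funext i; simp
    rw [e, h, mul_inv_cancel]
  have t1 : Y * (X * X) = X * (X * Y) := by rw [← mul_assoc X X Y, XX]; simp
  have t2 : Z * (X * X) = X * (X * Z) := by rw [← mul_assoc X X Z, XX]; simp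
  simp only [rels, Set.mem_insert_iff, Set.mem_singleton_iff] at hr
  rcases hr with rfl | rfl | rfl | rfl | rfl | rfl | rfl | rfl | rfl | rfl | rfl | rfl | rfl |
    rfl | rfl | rfl | rfl | rfl | rfl | rfl | rfl <;>
  · apply key
    simp only [List.map_cons, List.map_nil, List.prod_cons, List.prod_nil, mul_one, gen] <;>
    first
    | rfl
    | assumption
    | exact t1
    | exact t1.symm
    | exact t2
    | exact t2.symm

/-- the action of `G^2_4` -/
def act : G24 →* Equiv.Perm F2 := PresentedGroup.toGroup gen_rels

/-- There is an injective homomorphism from the free group of rank two to `G^2_4`. -/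
theorem result : ∃ ψ : FreeGroup (Fin 2) →* G24, Function.Injective ψ := by
  refine ⟨FreeGroup.lift ![PresentedGroup.of a * PresentedGroup.of b,
    PresentedGroup.of e * PresentedGroup.of a * PresentedGroup.of b * PresentedGroup.of e], ?_⟩
  have h : act.comp (FreeGroup.lift ![PresentedGroup.of a * PresentedGroup.of b,
      PresentedGroup.of e * PresentedGroup.of a * PresentedGroup.of b * PresentedGroup.of e]) =
      MulAction.toPermHom F2 F2 := by
    ext i w : 2
    fin_cases i
    · have : act (PresentedGroup.of a * PresentedGroup.of b) = L := by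
        rw [map_mul, act, PresentedGroup.toGroup.of, PresentedGroup.toGroup.of]
        exact XY
      simp only [MonoidHom.comp_apply, FreeGroup.lift_apply_of]
      change act (PresentedGroup.of a * PresentedGroup.of b) w = _
      rw [this]
      rfl
    · have : act (PresentedGroup.of e * PresentedGroup.of a * PresentedGroup.of b *
          PresentedGroup.of e) = Z * L * Z := by
        rw [map_mul, map_mul, map_mul, act, PresentedGroup.toGroup.of, PresentedGroup.toGroup.of,
          PresentedGroup.toGroup.of]
        change Z * X * Y * Z = _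
        rw [mul_assoc Z X Y, XY]
      simp only [MonoidHom.comp_apply, FreeGroup.lift_apply_of]
      change act (PresentedGroup.of e * PresentedGroup.of a * PresentedGroup.of b *
          PresentedGroup.of e) w = _
      rw [this]
      change zhom (FreeGroup.of 0 * zhom w) = FreeGroup.of 1 * w
      rw [map_mul, zhom_zhom]
      simp [zhom]
  intro u v huv
  have h1 : (MulAction.toPermHom F2 F2) u = (MulAction.toPermHom F2 F2) v := by
    rw [← h, MonoidHom.comp_apply, MonoidHom.comp_apply, huv]
  have h2 := congrArg (fun p : Equiv.Perm F2 => p 1) h1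
  simpa using h2

end Pool.Agent.Results.MP_18aa7e_al.FreeSubgroup
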